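import Mathlib

/-!
Auxiliary results for the construction of a rigid subspace of the Cantor group which is the union
of a subgroup and a countable set.
-/

open Set Cardinal Topology

namespace Pool.Agent.P.MP_5382b1_gt

/-- The Cantor group. -/
abbrev CantorGrp : Type := ℕ → ZMod 2

lemma mk_cantorGrp : #CantorGrp = 𝔠 := by
  simp [CantorGrp]

lemma add_self_cg (x : CantorGrp) : x + x = 0 := by
  funext n
  exact CharTwo.add_self_eq_zero (x n)

lemma zmod_two_cases (a : ZMod 2) : a = 0 ∨ a = 1 := by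
  revert a
  decide

/-- A set of pairs is big when fewer than continuum many vertical, horizontal and diagonal lines
never cover it. -/
def Big (F : Set (CantorGrp × CantorGrp)) : Prop :=
  ∀ S : Set CantorGrp, #S < 𝔠 → ∃ p ∈ F, p.1 ∉ S ∧ p.2 ∉ S ∧ p.1 + p.2 ∉ S

lemma mk_span_lt {S : Set CantorGrp} (hS : #S < 𝔠) :
    #(Submodule.span (ZMod 2) S : Set CantorGrp) < 𝔠 := by
  have h1 : (Submodule.span (ZMod 2) S : Set CantorGrp) ⊆
      range (fun l : List S => (l.map Subtype.val).sum) := by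
    intro z hz
    induction hz using Submodule.span_induction with
    | mem x hx => exact ⟨[⟨x, hx⟩], by simp⟩
    | zero => exact ⟨[], by simp⟩
    | add x y _ _ hx hy =>
      obtain ⟨l, rfl⟩ := hx
      obtain ⟨m, rfl⟩ := hy
      exact ⟨l ++ m, by simp⟩
    | smul a x _ hx =>
      rcases zmod_two_cases a with rfl | rfl
      · exact ⟨[], by simp⟩
      · simpa using hx
  calc #(Submodule.span (ZMod 2) S : Set CantorGrp)
      ≤ #(range (fun l : List S => (l.map Subtype.val).sum)) := mk_le_mk_of_subset h1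
    _ ≤ #(List S) := mk_range_le
    _ ≤ max ℵ₀ #S := mk_list_le_max _
    _ < 𝔠 := max_lt aleph0_lt_continuum hS

lemma exists_rec {ι α : Type} [LT ι] [WellFoundedLT ι] (P : ι → Set α → α → Prop)
    (h : ∀ (i : ι) (f : {j // j < i} → α), ∃ a, P i (range f) a) :
    ∃ f : ι → α, ∀ i, P i (f '' {j | j < i}) (f i) := by
  classical
  choose g hg using h
  let f : ι → α := (wellFounded_lt (α := ι)).fix (fun i prev => g i (fun j => prev j.1 j.2))
  refine ⟨f, fun i => ?_⟩
  have h1 : f i = g i (fun j => f j.1) := by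
    simp only [f]
    rw [WellFounded.fix_eq]
  have h2 : f '' {j | j < i} = range (fun j : {j // j < i} => f j.1) := by
    ext a
    simp
  rw [h2, h1]
  exact hg i _

lemma exists_indep_ord {ι : Type} [LinearOrder ι] [WellFoundedLT ι]
    (hι : ∀ i : ι, #(Iio i) < 𝔠) (F : ι → Set (CantorGrp × CantorGrp)) (hF : ∀ i, Big (F i)) :
    ∃ x y : ι → CantorGrp, (∀ i, (x i, y i) ∈ F i) ∧ Function.Injective x ∧
      (∀ i, y i ∉ Submodule.span (ZMod 2) (range x)) ∧
      (∀ i j, i ≠ j → y i + y j ∉ Submodule.span (ZMod 2) (range x)) := by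
  classical
  let W : Set (CantorGrp × CantorGrp) → Submodule (ZMod 2) CantorGrp :=
    fun T => Submodule.span (ZMod 2) (Prod.fst '' T ∪ Prod.snd '' T)
  obtain ⟨p, hp⟩ := exists_rec (ι := ι)
    (fun i T a => a ∈ F i ∧ a.1 ∉ W T ∧ a.2 ∉ W T ∧ a.1 + a.2 ∉ W T) (by
      intro i f
      have hT : #(range f) < 𝔠 := lt_of_le_of_lt mk_range_le (hι i)
      have hS : #(Prod.fst '' range f ∪ Prod.snd '' range f : Set CantorGrp) < 𝔠 := by
        refine lt_of_le_of_lt (mk_union_le _ _) ?_
        exact add_lt_of_lt aleph0_le_continuum (lt_of_le_of_lt mk_image_le hT)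
          (lt_of_le_of_lt mk_image_le hT)
      obtain ⟨a, ha, h1, h2, h3⟩ := hF i _ (mk_span_lt hS)
      exact ⟨a, ha, h1, h2, h3⟩)
  set Z : ι → Submodule (ZMod 2) CantorGrp := fun i => W (p '' {j | j < i}) with hZ
  have hx : ∀ i j, j < i → (p j).1 ∈ Z i := fun i j hj =>
    Submodule.subset_span (Or.inl ⟨p j, ⟨j, hj, rfl⟩, rfl⟩)
  have hy : ∀ i j, j < i → (p j).2 ∈ Z i := fun i j hj =>
    Submodule.subset_span (Or.inr ⟨p j, ⟨j, hj, rfl⟩, rfl⟩)
  have cancel : ∀ (M : Submodule (ZMod 2) CantorGrp) (a b : CantorGrp),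
      a + b ∈ M → a ∈ M → b ∈ M := by
    intro M a b hab ha
    simpa using M.sub_mem hab ha
  have key : ∀ (s : Finset ι) (i : ι) (w : CantorGrp), (w = 0 ∨ ∃ j, j < i ∧ w = (p j).2) →
      (p i).2 + w ∉ Submodule.span (ZMod 2) ((fun j => (p j).1) '' (s : Set ι)) := by
    intro s
    induction s using Finset.induction_on_max with
    | empty =>
      intro i w hw hmem
      have hw' : w ∈ Z i := by
        rcases hw with rfl | ⟨j, hj, rfl⟩
        · exact (Z i).zero_mem
        · exact hy i j hj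
      simp only [Finset.coe_empty, image_empty, Submodule.span_empty, Submodule.mem_bot] at hmem
      exact (hp i).2.2.1 (cancel (Z i) w _ (by rw [add_comm, hmem]; exact (Z i).zero_mem) hw')
    | insert b s hb ih =>
      intro i w hw hmem
      have hw' : w ∈ Z i := by
        rcases hw with rfl | ⟨j, hj, rfl⟩
        · exact (Z i).zero_mem
        · exact hy i j hj
      rw [Finset.coe_insert, image_insert_eq, Submodule.mem_span_insert] at hmem
      obtain ⟨a, z, hz, hEq⟩ := hmem
      have hzZ : ∀ k, b ≤ k → z ∈ Z k := by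
        intro k hk
        refine (Submodule.span_le.2 ?_ : Submodule.span (ZMod 2) _ ≤ Z k) hz
        rintro _ ⟨j, hj, rfl⟩
        exact hx k j (lt_of_lt_of_le (hb j hj) hk)
      rcases zmod_two_cases a with rfl | rfl
      · rw [zero_smul, zero_add] at hEq
        exact ih i w hw (hEq ▸ hz)
      · rw [one_smul] at hEq
        rcases lt_trichotomy i b with hib | rfl | hib
        · have hwb : w ∈ Z b := by
            rcases hw with rfl | ⟨j, hj, rfl⟩
            · exact (Z b).zero_mem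
            · exact hy b j (hj.trans hib)
          have h1 : z + (p b).1 ∈ Z b := by
            rw [add_comm, ← hEq]
            exact (Z b).add_mem (hy b i hib) hwb
          exact (hp b).2.1 (cancel _ _ _ h1 (hzZ b le_rfl))
        · have h1 : (p i).1 + (p i).2 = z + w := by
            have h2 := add_self_cg (p i).1
            have h3 := add_self_cg w
            linear_combination hEq + h2 - h3
          exact (hp i).2.2.2 (h1 ▸ (Z i).add_mem (hzZ i le_rfl) hw')
        · have h1 : w + (p i).2 ∈ Z i := by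
            rw [add_comm, hEq]
            exact (Z i).add_mem (hx i b hib) (hzZ i hib.le)
          exact (hp i).2.2.1 (cancel _ _ _ h1 hw')
  have key2 : ∀ (i : ι) (w : CantorGrp), (w = 0 ∨ ∃ j, j < i ∧ w = (p j).2) →
      (p i).2 + w ∉ Submodule.span (ZMod 2) (range fun j => (p j).1) := by
    intro i w hw hmem
    obtain ⟨T, hT, hmem⟩ := Submodule.mem_span_finite_of_mem_span hmem
    obtain ⟨s, hs⟩ := Finset.subset_set_image_iff.1 (by rwa [← image_univ] at hT)
    exact key s i w hw (by rw [← hs.2] at hmem; simpa using hmem)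
  refine ⟨fun i => (p i).1, fun i => (p i).2, fun i => (hp i).1, ?_, ?_, ?_⟩
  · intro i j hij
    simp only at hij
    rcases lt_trichotomy i j with h | h | h
    · exact absurd (hij ▸ hx j i h) (hp j).2.1
    · exact h
    · exact absurd (hij ▸ hx i j h) (hp i).2.1
  · intro i
    simpa using key2 i 0 (Or.inl rfl)
  · intro i j hij
    rcases lt_or_gt_of_ne hij with h | h
    · rw [add_comm]
      exact key2 j _ (Or.inr ⟨i, h, rfl⟩)
    · exact key2 i _ (Or.inr ⟨j, h, rfl⟩)

lemma exists_indep {ι : Type} (hι : #ι ≤ 𝔠) (F : ι → Set (CantorGrp × CantorGrp))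
    (hF : ∀ i, Big (F i)) :
    ∃ x y : ι → CantorGrp, (∀ i, (x i, y i) ∈ F i) ∧ Function.Injective x ∧
      (∀ i, y i ∉ Submodule.span (ZMod 2) (range x)) ∧
      (∀ i j, i ≠ j → y i + y j ∉ Submodule.span (ZMod 2) (range x)) := by
  obtain ⟨e⟩ : Nonempty (ι ≃ (#ι).ord.ToType) := Cardinal.eq.1 (by simp)
  obtain ⟨x, y, h1, h2, h3, h4⟩ := exists_indep_ord (ι := (#ι).ord.ToType)
    (fun i => lt_of_lt_of_le (by simpa using mk_Iio_lt i) hι) (fun i => F (e.symm i))
    (fun i => hF _)
  have hr : range (x ∘ e) = range x := e.surjective.range_comp x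
  refine ⟨x ∘ e, y ∘ e, fun i => by simpa using h1 (e i), h2.comp e.injective, ?_, ?_⟩
  · intro i
    rw [hr]
    exact h3 _
  · intro i j hij
    rw [hr]
    exact h4 _ _ (fun h => hij (e.injective h))

lemma continuum_le_mk_of_isOpen {U : Set CantorGrp} (hU : IsOpen U) (hne : U.Nonempty) :
    𝔠 ≤ #U := by
  obtain ⟨x, hx⟩ := hne
  obtain ⟨I, u, hu, hsub⟩ := isOpen_pi_iff.1 hU x hx
  obtain ⟨n, hn⟩ := I.bddAbove
  let f : CantorGrp → U := fun z => ⟨fun i => if i ≤ n then x i else z (i - (n + 1)), by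
    apply hsub
    intro i hi
    have : i ≤ n := hn hi
    simp only [this, if_true]
    exact (hu i hi).2⟩
  rw [← mk_cantorGrp]
  refine mk_le_of_injective (f := f) ?_
  intro z z' h
  funext i
  have := congrFun (congrArg Subtype.val h) (i + (n + 1))
  simpa [f, show ¬ (i + (n + 1) ≤ n) by omega] using this

lemma exists_mem_notMem {U S : Set CantorGrp} (hU : 𝔠 ≤ #U) (hS : #S < 𝔠) :
    ∃ x ∈ U, x ∉ S := by
  by_contra h
  push Not at h
  exact absurd (hU.trans (mk_le_mk_of_subset h)) (not_le.2 hS)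

lemma big_prod {U : Set CantorGrp} (hU : IsOpen U) (hne : U.Nonempty) : Big (U ×ˢ U) := by
  intro S hS
  have hc := continuum_le_mk_of_isOpen hU hne
  obtain ⟨x, hx, hxS⟩ := exists_mem_notMem hc hS
  have hS' : #(S ∪ (fun s => s - x) '' S : Set CantorGrp) < 𝔠 :=
    lt_of_le_of_lt (mk_union_le _ _)
      (add_lt_of_lt aleph0_le_continuum hS (lt_of_le_of_lt mk_image_le hS))
  obtain ⟨y, hy, hyS⟩ := exists_mem_notMem hc hS'
  refine ⟨(x, y), ⟨hx, hy⟩, hxS, fun h => hyS (Or.inl h), fun h => hyS (Or.inr ⟨_, h, ?_⟩)⟩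
  simp

/-- Cantor scheme: a set every relatively open nonempty part of which holds two points in general
position has big closure. -/
lemma big_closure {Γ : Set (CantorGrp × CantorGrp)} (hne : Γ.Nonempty)
    (hΓ : ∀ O : Set (CantorGrp × CantorGrp), IsOpen O → (O ∩ Γ).Nonempty →
      ∃ p ∈ O ∩ Γ, ∃ q ∈ O ∩ Γ, p.1 ≠ q.1 ∧ p.2 ≠ q.2 ∧ p.1 + p.2 ≠ q.1 + q.2) :
    Big (closure Γ) := by
  classical
  let Node := {O : Set (CantorGrp × CantorGrp) // IsOpen O ∧ (O ∩ Γ).Nonempty}
  have hsplit : ∀ N : Node, ∃ c : Bool → Node, (∀ b, (c b).1 ⊆ N.1) ∧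
      ∀ p ∈ closure ((c false).1 ∩ Γ), ∀ q ∈ closure ((c true).1 ∩ Γ),
        p.1 ≠ q.1 ∧ p.2 ≠ q.2 ∧ p.1 + p.2 ≠ q.1 + q.2 := by
    rintro ⟨O, hO, hOne⟩
    obtain ⟨p, hp, q, hq, h1, h2, h3⟩ := hΓ O hO hOne
    obtain ⟨i, hi⟩ := Function.ne_iff.1 h1
    obtain ⟨j, hj⟩ := Function.ne_iff.1 h2
    obtain ⟨k, hk⟩ := Function.ne_iff.1 h3
    let φ : CantorGrp × CantorGrp → ZMod 2 × ZMod 2 × ZMod 2 :=
      fun r => (r.1 i, r.2 j, (r.1 + r.2) k)
    have hφ : Continuous φ := by
      simp only [φ, Pi.add_apply]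
      fun_prop
    have hcl : ∀ r, IsClopen (φ ⁻¹' {φ r}) := fun r =>
      (isClopen_discrete {φ r}).preimage hφ
    let c : Bool → Node := fun b => match b with
      | false => ⟨O ∩ φ ⁻¹' {φ p}, hO.inter (hcl p).isOpen, p, ⟨hp.1, rfl⟩, hp.2⟩
      | true => ⟨O ∩ φ ⁻¹' {φ q}, hO.inter (hcl q).isOpen, q, ⟨hq.1, rfl⟩, hq.2⟩
    refine ⟨c, ?_, ?_⟩
    · rintro (_ | _) <;> exact inter_subset_left
    · intro p' hp' q' hq'
      have e1 : p' ∈ φ ⁻¹' {φ p} :=
        closure_minimal (fun r hr => hr.1.2) (hcl p).isClosed hp'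
      have e2 : q' ∈ φ ⁻¹' {φ q} :=
        closure_minimal (fun r hr => hr.1.2) (hcl q).isClosed hq'
      simp only [mem_preimage, mem_singleton_iff, φ, Prod.mk.injEq] at e1 e2
      refine ⟨fun h => hi ?_, fun h => hj ?_, fun h => hk ?_⟩
      · rw [← e1.1, ← e2.1, h]
      · rw [← e1.2.1, ← e2.2.1, h]
      · rw [← e1.2.2, ← e2.2.2, h]
  choose c hc1 hc2 using hsplit
  let root : Node := ⟨univ, isOpen_univ, by simpa using hne⟩
  let node : (ℕ → Bool) → ℕ → Node := fun a n => Nat.rec root (fun n N => c N (a n)) n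
  have node_succ : ∀ a n, node a (n + 1) = c (node a n) (a n) := fun a n => rfl
  have hex : ∀ a : ℕ → Bool, (⋂ n, closure ((node a n).1 ∩ Γ)).Nonempty := by
    intro a
    refine IsCompact.nonempty_iInter_of_sequence_nonempty_isCompact_isClosed _ ?_ ?_ ?_ ?_
    · intro n
      exact closure_mono (inter_subset_inter_left _ (hc1 _ _))
    · intro n
      exact (node a n).2.2.closure
    · exact isClosed_closure.isCompact
    · intro n
      exact isClosed_closure
  choose f hf using hex
  have hf' : ∀ a n, f a ∈ closure ((node a n).1 ∩ Γ) := fun a n => mem_iInter.1 (hf a) n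
  have hsep : ∀ a b, a ≠ b → (f a).1 ≠ (f b).1 ∧ (f a).2 ≠ (f b).2 ∧
      (f a).1 + (f a).2 ≠ (f b).1 + (f b).2 := by
    intro a b hab
    have hne' : ∃ n, a n ≠ b n := Function.ne_iff.1 hab
    have hagree : ∀ m, m ≤ Nat.find hne' → node a m = node b m := by
      intro m
      induction m with
      | zero => intro _; rfl
      | succ m ih =>
        intro hm
        have h1 : a m = b m := by
          by_contra h
          exact absurd (Nat.find_min' hne' h) (by omega)
        rw [node_succ, node_succ, ih (by omega), h1]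
    have ha := hf' a (Nat.find hne' + 1)
    have hb := hf' b (Nat.find hne' + 1)
    rw [node_succ] at ha hb
    rw [← hagree _ le_rfl] at hb
    have hn := Nat.find_spec hne'
    rcases hA : a (Nat.find hne') with _ | _ <;> rcases hB : b (Nat.find hne') with _ | _
    · exact absurd (hA.trans hB.symm) hn
    · rw [hA] at ha
      rw [hB] at hb
      exact hc2 _ _ ha _ hb
    · rw [hA] at ha
      rw [hB] at hb
      obtain ⟨h1, h2, h3⟩ := hc2 _ _ hb _ ha
      exact ⟨h1.symm, h2.symm, h3.symm⟩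
    · exact absurd (hA.trans hB.symm) hn
  intro S hS
  have hsmall : ∀ g : (ℕ → Bool) → CantorGrp, Function.Injective g → #(g ⁻¹' S) < 𝔠 :=
    fun g hg => lt_of_le_of_lt (mk_preimage_of_injective g S hg) hS
  have i1 : Function.Injective (fun a => (f a).1) := fun a b h => by
    by_contra hab; exact (hsep a b hab).1 h
  have i2 : Function.Injective (fun a => (f a).2) := fun a b h => by
    by_contra hab; exact (hsep a b hab).2.1 h
  have i3 : Function.Injective (fun a => (f a).1 + (f a).2) := fun a b h => by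
    by_contra hab; exact (hsep a b hab).2.2 h
  have hU : #((fun a => (f a).1) ⁻¹' S ∪ (fun a => (f a).2) ⁻¹' S ∪
      (fun a => (f a).1 + (f a).2) ⁻¹' S : Set (ℕ → Bool)) < 𝔠 := by
    refine lt_of_le_of_lt (mk_union_le _ _) (add_lt_of_lt aleph0_le_continuum ?_ (hsmall _ i3))
    exact lt_of_le_of_lt (mk_union_le _ _)
      (add_lt_of_lt aleph0_le_continuum (hsmall _ i1) (hsmall _ i2))
  have : ∃ a, a ∉ ((fun a => (f a).1) ⁻¹' S ∪ (fun a => (f a).2) ⁻¹' S ∪
      (fun a => (f a).1 + (f a).2) ⁻¹' S : Set (ℕ → Bool)) := by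
    by_contra h
    push Not at h
    rw [eq_univ_of_forall h] at hU
    simp at hU
  obtain ⟨a, ha⟩ := this
  simp only [mem_union, mem_preimage, not_or] at ha
  exact ⟨f a, closure_mono inter_subset_right (hf' a 0), ha.1.1, ha.1.2, ha.2⟩

lemma mk_isClosed_le :
    #{F : Set (CantorGrp × CantorGrp) // IsClosed F} ≤ 𝔠 := by
  let B := TopologicalSpace.countableBasis (CantorGrp × CantorGrp)
  have hB : TopologicalSpace.IsTopologicalBasis B := TopologicalSpace.isBasis_countableBasis _
  have hc : Countable B := (TopologicalSpace.countable_countableBasis _).to_subtype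
  let f : {F : Set (CantorGrp × CantorGrp) // IsClosed F} → Set B :=
    fun F => {b | b.1 ⊆ F.1ᶜ}
  have hf : Function.Injective f := by
    have aux : ∀ F F', f F = f F' → F.1ᶜ ⊆ F'.1ᶜ := by
      intro F F' h x hx
      obtain ⟨b, hb, hxb, hbF⟩ := hB.exists_subset_of_mem_open hx F.2.isOpen_compl
      have : (⟨b, hb⟩ : B) ∈ f F' := h ▸ hbF
      exact this hxb
    intro F F' h
    exact Subtype.ext (compl_injective (Subset.antisymm (aux F F' h) (aux F' F h.symm)))
  calc _ ≤ #(Set B) := mk_le_of_injective hf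
    _ = 2 ^ #B := mk_set
    _ ≤ 2 ^ ℵ₀ := power_le_power_left two_ne_zero mk_le_aleph0
    _ = 𝔠 := two_power_aleph0

end Pool.Agent.P.MP_5382b1_gt
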